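import Pool.Agent.K.MP_d34769_ag.C146

namespace Pool.Agent.Results.MP_d34769_ag.Betti

open Pool.Agent.P.MP_d34769_ag

theorem result (n d k : ℕ) (hn : 0 < n) (hk : 0 < k) (hc : Nat.gcd n (Nat.gcd d k) = 1) (α : ℝ)
    (h0 : 0 < α) (hα : Irrational α) :
    ∃ P : Polynomial ℚ, (∀ j : ℕ,
      Module.Finite ℚ (((AlgebraicTopology.singularHomologyFunctor (ModuleCat.{0} ℚ) j).obj
        (ModuleCat.of ℚ ℚ)).obj (@TopCat.of (GMod α n d k) (modTop α n d k))) ∧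
      (Module.finrank ℚ (((AlgebraicTopology.singularHomologyFunctor (ModuleCat.{0} ℚ) j).obj
        (ModuleCat.of ℚ ℚ)).obj (@TopCat.of (GMod α n d k) (modTop α n d k))) : ℚ) = P.coeff j) ∧
      ∀ t : ℚ, 0 < t → t < 1 → P.eval t = t ^ (2 * ((k : ℤ) * (d + n - k) - n ^ 2 + 1)) *
        (1 - t⁻¹ ^ 2) * pser (wgt n d k α) (t⁻¹ ^ 2) ![d, n + d, k] :=
  Pool.Agent.Bet.betti n d k hn hk hc α h0 hα

end Pool.Agent.Results.MP_d34769_ag.Betti
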