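import Pool.Agent.K.MP_d34769_ag.C20

namespace Pool.Agent.Results.MP_d34769_ag.FlipCount

open Pool.Agent.P.MP_d34769_ag

theorem result (n d k : ℕ) (hn : 0 < n) (hk : 0 < k) (γ : ℝ) (hγ : 0 < γ) :
    ∃ ε > 0, ∀ α β : ℝ, 0 < α → 0 < β → |α - γ| < ε → |β - γ| < ε → (α - γ) * (β - γ) < 0 →
      ∃ P : Polynomial ℚ, (∀ q : ℚ, 1 < q → P.eval q =
          cnt (wgt n d k β) ![d, n + d, k] q - cnt (wgt n d k γ) ![d, n + d, k] q) ∧
        ∀ (K : Type) [Field K] [Finite K],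
          Finite (Quot fun S S' : {S : CohSys K n d k // Stable β S ∧ ¬ Stable α S ∧ Simple S} =>
            Iso S.1 S'.1) ∧
          (Nat.card (Quot fun S S' : {S : CohSys K n d k // Stable β S ∧ ¬ Stable α S ∧ Simple S} =>
            Iso S.1 S'.1) : ℚ) = P.eval (Nat.card K : ℚ) := by
  obtain ⟨ε, hε, h⟩ := mainC n d k hn hk γ hγ
  exact ⟨ε, hε, fun α β hα hβ h1 h2 h3 => (h α β hα hβ h1 h2 h3).2⟩

end Pool.Agent.Results.MP_d34769_ag.FlipCount
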