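import Pool.Agent.K.MP_d34769_ag.C150
import Pool.Agent.K.MP_d34769_ag.C127
import Pool.Agent.K.MP_d34769_ag.C140
import Pool.Agent.K.MP_d34769_ag.C152
import Pool.Agent.P.MP_d34769_ag.YV0

namespace Pool.Agent.Results.MP_d34769_ag.Hodge

open Pool.Agent.P.MP_d34769_ag Pool.Agent.PQ

theorem result (n d k : ℕ) (hn : 0 < n) (hk : 0 < k) (α : ℝ) (hα : 0 < α) :
    (∀ (d' : ℤ) (S : CohSys ℂ n d' k), Stable α S → 0 ≤ d') ∧
    (∃ ε > 0, ∀ β γ μ : ℝ, 0 < β → 0 < γ → |β - α| < ε → |γ - α| < ε → (β - α) * (γ - α) < 0 →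
      (d + α * k) / n = μ → Nonempty (Loc α μ) ∧ ∀ L : Loc α μ,
      (∀ S : CohSys ℂ n d k, Stable β S → ∃ M, Built L S M) ∧
      (∀ M, typ M = (n, d, k) → LSt β M → ∃ S : CohSys ℂ n d k, Built L S M) ∧
      ∀ (S : CohSys ℂ n d k) M, Built L S M → typ M = (n, d, k) ∧ (Stable β S ↔ LSt β M) ∧
        (Stable β S ∧ ¬ Stable γ S ↔ LSt β M ∧ 1 < M.s) ∧
        ∀ S' M', Built L S' M' → (Iso S S' ↔ LIso M M')) ∧
    (∃ (N r : ℕ) (Z : Set (Amb N)) (D : Fin r → Set (Amb N))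
      (q : @Homeomorph (GMod α n d k) ↥(Z \ ⋃ i, D i) (modTop α n d k) _),
      IsSNC ((k : ℤ) * (d + n - k) - n ^ 2 + 1).toNat Z D ∧ Reg fun x => (q x).1) ∧
    ∀ (N e : ℕ) (ι : Type) [Finite ι] (Z : Set (Amb N)) (D : ι → Set (Amb N)), IsSNC e Z D →
      ∀ q : @Homeomorph (GMod α n d k) ↥(Z \ ⋃ i, D i) (modTop α n d k) _,
        Reg (fun x => (q x).1) →
        (∀ j c a, j ≠ 2 * a + c → hdg Z D j c a = 0) ∧
        (∀ c a, ∑ b ∈ Finset.range (a + 1), hdg Z D (2 * b + c) c b =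
          hco (I := Σ v, Fin (![d, n + d, k] v)) Sigma.fst (wgt n d k α) (fun i => i.2) (c + 1) a) ∧
        ∀ j : ℕ, Module.rank ℚ (((AlgebraicTopology.singularHomologyFunctor (ModuleCat.{0} ℚ) j).obj
          (ModuleCat.of ℚ ℚ)).obj (@TopCat.of (GMod α n d k) (modTop α n d k))) =
          ∑ c ∈ Finset.range (2 * e + 1), ∑ a ∈ Finset.range (e + 1),
            if j + 2 * a + c = 2 * e then hdg Z D (2 * a + c) c a else 0 := by
  rw [hdg_eq, hco_eq]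
  exact ⟨fun _ _ h => (h.nn hα hk).nonneg, FL.flipsM n d k hn hk α hα,
    CS.exists_model n d k hn hk α hα, fun N e ι _ Z D h q hq =>
    have H := CS.hodge n d k hn hk α hα N e ι Z D h q hq
    ⟨H.1, H.2, CS.sing_eq h _ q H.1⟩⟩

end Pool.Agent.Results.MP_d34769_ag.Hodge
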