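import Pool.Agent.K.MP_d34769_ag.C127
import Pool.Agent.K.MP_d34769_ag.C140
import Pool.Agent.K.MP_d34769_ag.C167
import Pool.Agent.P.MP_d34769_ag.YV0

namespace Pool.Agent.Results.MP_d34769_ag.HodgePoly

open Pool.Agent.P.MP_d34769_ag Pool.Agent.PQ

theorem result (n d k : ℕ) (hn : 0 < n) (hk : 0 < k) (α : ℝ) (hα : 0 < α) :
    (∃ (N r : ℕ) (Z : Set (Amb N)) (D : Fin r → Set (Amb N))
      (q : @Homeomorph (GMod α n d k) ↥(Z \ ⋃ i, D i) (modTop α n d k) _),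
      IsSNC ((k : ℤ) * (d + n - k) - n ^ 2 + 1).toNat Z D ∧ Reg fun x => (q x).1) ∧
    ∃ P : Polynomial ℚ, (∀ t : ℚ, 1 < t → P.eval t = cnt (wgt n d k α) ![d, n + d, k] t) ∧
      ∀ (N e : ℕ) (ι : Type) [Finite ι] (Z : Set (Amb N)) (D : ι → Set (Amb N)), IsSNC e Z D →
        ∀ q : @Homeomorph (GMod α n d k) ↥(Z \ ⋃ i, D i) (modTop α n d k) _,
          Reg (fun x => (q x).1) → ∃ h : ℕ → ℕ → ℕ → ℕ, (∀ j c a, hdg Z D j c a = h j c a) ∧
            (∀ j c a, j ≠ 2 * a + c ∨ 2 * d + n + k ≤ c → h j c a = 0) ∧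
            ∀ a, P.coeff a =
              ∑ c ∈ Finset.range (2 * d + n + k), (-1 : ℚ) ^ c * h (2 * a + c) c a := by
  rw [hdg_eq]
  exact ⟨CS.exists_model n d k hn hk α hα, (CS.EC.ec_fin n d k hn hk α hα).imp fun _ E =>
    ⟨E.1, fun N e ι _ Z D s q hq =>
      have H := CS.hodge n d k hn hk α hα N e ι Z D s q hq
      have K := E.2 (fun c b => hod Z D (2 * b + c) c b) H.2
      ⟨fun j c a => (hod Z D j c a).toNat,
        fun j c a => (Cardinal.cast_toNat_of_lt_aleph0 ((em (j = 2 * a + c)).elim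
          (fun m => m ▸ K.1 c a) fun m => (H.1 j c a m).trans_lt Cardinal.aleph0_pos)).symm,
        fun j c a m => (em (j = 2 * a + c)).elim
          (fun z => z ▸ K.2.1 c a (m.resolve_left fun y => y z))
          fun z => (congrArg Cardinal.toNat (H.1 j c a z)).trans (map_zero _), K.2.2⟩⟩⟩

end Pool.Agent.Results.MP_d34769_ag.HodgePoly
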